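import Pool.Agent.H84.TO.TargetsH

open MeasureTheory Matrix Polynomial Filter Topology
open scoped ENNReal

namespace Pool.Agent.H38.TO

open Pool.Agent.H84.TO

section
variable {ι : Type} [Fintype ι] [DecidableEq ι]

/-- the discriminant of the characteristic polynomial, up to sign -/
noncomputable def dsc {R : Type*} [CommRing R] (A : Matrix ι ι R) : R :=
  resultant A.charpoly (derivative A.charpoly) (Fintype.card ι) (Fintype.card ι - 1)

theorem dsc_map {R S : Type*} [CommRing R] [CommRing S] (φ : R →+* S) (A : Matrix ι ι R) :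
    dsc (A.map φ) = φ (dsc A) := by
  rw [dsc, Matrix.charpoly_map, Polynomial.derivative_map, resultant_map_map]
  rfl

theorem dsc_ne (A : Matrix ι ι ℝ) : dsc A ≠ 0 ↔ A.charpoly.Separable := by
  have h1 : A.charpoly.natDegree = Fintype.card ι := Matrix.charpoly_natDegree_eq_dim A
  have h2 : (derivative A.charpoly).natDegree = Fintype.card ι - 1 := by
    rw [Polynomial.natDegree_derivative, h1]
  have h3 : dsc A = resultant A.charpoly (derivative A.charpoly) := by
    rw [dsc, h1, h2]
  rw [h3, Ne, resultant_eq_zero_iff, Polynomial.separable_def]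
  have h4 : A.charpoly ≠ 0 := (Matrix.charpoly_monic A).ne_zero
  tauto

theorem dsc_cont : Continuous (fun A : Matrix ι ι ℝ => dsc A) := by
  have h : ∀ A : Matrix ι ι ℝ, dsc A =
      MvPolynomial.eval (fun p : ι × ι => A p.1 p.2) (dsc (mvPolynomialX ι ι ℝ)) := by
    intro A
    rw [← dsc_map]
    congr 1
    ext i j
    simp
  have h2 : (fun A : Matrix ι ι ℝ => dsc A) = fun A : Matrix ι ι ℝ =>
      MvPolynomial.eval (fun p : ι × ι => A p.1 p.2) (dsc (mvPolynomialX ι ι ℝ)) := funext h
  rw [h2]
  apply (MvPolynomial.continuous_eval _).comp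
  exact continuous_pi fun p => (continuous_apply p.2).comp (continuous_apply p.1)

theorem dsc_line (x D : Matrix ι ι ℝ) (hD : dsc D ≠ 0) :
    {t : ℝ | dsc (t • x + D) = 0}.Finite := by
  set G : ℝ[X] := dsc ((X : ℝ[X]) • x.map C + D.map C) with hG
  have h : ∀ t : ℝ, G.eval t = dsc (t • x + D) := by
    intro t
    rw [hG, ← Polynomial.coe_evalRingHom, ← dsc_map]
    congr 1
    ext i j
    simp
    ring
  have hG0 : G ≠ 0 := by
    intro h0
    have := h 0
    rw [h0] at this
    simp at this
    exact hD this.symm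
  refine (Polynomial.finite_setOf_isRoot hG0).subset ?_
  intro t ht
  rw [Set.mem_setOf_eq] at ht ⊢
  rw [Polynomial.IsRoot.def, h, ht]
end

theorem aed (hlin : T_LIN) : T_AED := by
  intro ι κ _ _ _ _
  set D : Matrix ι ι ℝ := diagonal (fun i => ((Fintype.equivFin ι i : ℕ) : ℝ)) with hD
  have hDs : dsc D ≠ 0 := by
    rw [dsc_ne, hD, Matrix.charpoly_diagonal, Polynomial.separable_prod_X_sub_C_iff]
    intro i j hij
    have : (Fintype.equivFin ι i : ℕ) = (Fintype.equivFin ι j : ℕ) := Nat.cast_injective hij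
    exact (Fintype.equivFin ι).injective (Fin.ext this)
  set D' : Matrix (ι ⊕ κ) ι ℝ := fromRows D 0 with hD'
  have hc : Continuous (fun Y : Matrix (ι ⊕ κ) ι ℝ => dsc (top Y)) := by
    apply dsc_cont.comp
    exact continuous_pi fun i => continuous_pi fun j =>
      (continuous_apply j).comp (continuous_apply (Sum.inl i))
  have hZ : MeasurableSet {Y : Matrix (ι ⊕ κ) ι ℝ | dsc (top Y) = 0} :=
    (isClosed_eq hc continuous_const).measurableSet
  have hZ' : MeasurableSet ((fun Y => Y + D') ⁻¹' {Y : Matrix (ι ⊕ κ) ι ℝ | dsc (top Y) = 0}) := by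
    apply hZ.preimage
    apply Continuous.measurable
    fun_prop
  have h0 := (hlin (ι ⊕ κ) ι _ hZ').2 (fun x => by
    have hfin : {t : ℝ | t • x ∈ (fun Y => Y + D') ⁻¹'
        {Y : Matrix (ι ⊕ κ) ι ℝ | dsc (top Y) = 0}} ⊆ {t : ℝ | dsc (t • top x + D) = 0} := by
      intro t ht
      have : top (t • x + D') = t • top x + D := by
        ext i j
        simp [hD', Matrix.toRows₁]
      rw [Set.mem_setOf_eq, ← this]
      exact ht
    exact ((dsc_line _ D hDs).subset hfin).measure_zero _)
  rw [measure_preimage_add_right] at h0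
  have h1 : ∀ᵐ Y : Matrix (ι ⊕ κ) ι ℝ, ¬ (dsc (top Y) = 0) := by
    rw [ae_iff]
    simpa using h0
  filter_upwards [h1] with Y hY
  exact (dsc_ne _).1 hY

end Pool.Agent.H38.TO
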