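import Pool.Agent.H84.TO.TargetsH

open MeasureTheory Matrix Polynomial Filter Topology
open scoped ENNReal

namespace Pool.Agent.H38.TO

open Pool.Agent.H84.TO

section
variable {m n p : Type} [Fintype m] [Fintype n] [Fintype p]

theorem meas_fromRows : Measurable (fun q : Matrix m p ℝ × Matrix n p ℝ => fromRows q.1 q.2) := by
  refine measurable_pi_iff.2 ?_
  rintro (i | i)
  · exact (measurable_pi_apply i).comp measurable_fst
  · exact (measurable_pi_apply i).comp measurable_snd

theorem meas_fromCols : Measurable (fun q : Matrix m n ℝ × Matrix m p ℝ => fromCols q.1 q.2) := by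
  refine measurable_pi_iff.2 ?_
  intro i
  refine measurable_pi_iff.2 ?_
  rintro (j | j)
  · exact (measurable_pi_apply j).comp ((measurable_pi_apply i).comp measurable_fst)
  · exact (measurable_pi_apply j).comp ((measurable_pi_apply i).comp measurable_snd)

theorem int_rows (f : Matrix (m ⊕ n) p ℝ → ℝ≥0∞) (hf : Measurable f) :
    ∫⁻ Y, f Y = ∫⁻ A : Matrix m p ℝ, ∫⁻ B : Matrix n p ℝ, f (fromRows A B) := by
  have h1 := volume_measurePreserving_sumPiEquivProdPi_symm (fun _ : m ⊕ n => p → ℝ)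
  have h2 := h1.lintegral_comp (f := (f : (m ⊕ n → p → ℝ) → ℝ≥0∞)) hf
  have h3 : ∫⁻ Y, f Y = ∫⁻ q : Matrix m p ℝ × Matrix n p ℝ, f (fromRows q.1 q.2) := by
    refine h2.symm.trans ?_
    refine lintegral_congr fun q => ?_
    congr 1
  rw [h3]
  exact lintegral_prod _ (hf.comp meas_fromRows).aemeasurable

theorem int_cols (f : Matrix m (n ⊕ p) ℝ → ℝ≥0∞) (hf : Measurable f) :
    ∫⁻ Y, f Y = ∫⁻ A : Matrix m n ℝ, ∫⁻ B : Matrix m p ℝ, f (fromCols A B) := by
  have h1 := volume_preserving_pi (fun _ : m =>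
    volume_measurePreserving_sumPiEquivProdPi_symm (fun _ : n ⊕ p => ℝ))
  have h1' := (volume_measurePreserving_arrowProdEquivProdArrow (n → ℝ) (p → ℝ) m).symm
  have h1'' := h1.comp h1'
  have h2 := h1''.lintegral_comp (f := (f : (m → n ⊕ p → ℝ) → ℝ≥0∞)) hf
  have h3 : ∫⁻ Y, f Y = ∫⁻ q : Matrix m n ℝ × Matrix m p ℝ, f (fromCols q.1 q.2) := by
    refine h2.symm.trans ?_
    refine lintegral_congr fun q => ?_
    congr 1
  rw [h3]
  exact lintegral_prod _ (hf.comp meas_fromCols).aemeasurable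

theorem int_reindex (e : m ≃ n) (f : Matrix n p ℝ → ℝ≥0∞) (hf : Measurable f) :
    ∫⁻ Y, f Y = ∫⁻ Y' : Matrix m p ℝ, f (fun i => Y' (e.symm i)) := by
  have h1 := volume_measurePreserving_piCongrLeft (fun _ : n => p → ℝ) e
  have h2 := h1.lintegral_comp (f := (f : (n → p → ℝ) → ℝ≥0∞)) hf
  refine h2.symm.trans ?_
  refine lintegral_congr fun q => ?_
  congr 1
  ext i j
  obtain ⟨i, rfl⟩ := e.surjective i
  rw [MeasurableEquiv.coe_piCongrLeft, Equiv.piCongrLeft_apply_apply]
  simp
end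

/-- the equivalence of rows -/
def shf (a b κ : Type) : (a ⊕ κ) ⊕ b ≃ (a ⊕ b) ⊕ κ where
  toFun := Sum.elim (Sum.elim (fun i => Sum.inl (Sum.inl i)) (fun i => Sum.inr i))
    (fun i => Sum.inl (Sum.inr i))
  invFun := Sum.elim (Sum.elim (fun i => Sum.inl (Sum.inl i)) (fun i => Sum.inr i))
    (fun i => Sum.inl (Sum.inr i))
  left_inv := by rintro ((i | i) | i) <;> rfl
  right_inv := by rintro ((i | i) | i) <;> rfl

theorem blm : T_BLM := by
  intro a b κ _ _ _ _ _ _
  refine ⟨fun f hf => ?_, fun f hf => int_rows f hf⟩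
  have hg : Measurable (fun Y' : Matrix ((a ⊕ κ) ⊕ b) (a ⊕ b) ℝ =>
      f (fun i => Y' ((shf a b κ).symm i))) := by
    apply hf.comp
    refine measurable_pi_iff.2 ?_
    intro i
    exact measurable_pi_apply _
  refine (int_reindex (shf a b κ) f hf).trans ?_
  refine (int_rows _ hg).trans ?_
  have hg2 : Measurable (fun q : Matrix (a ⊕ κ) (a ⊕ b) ℝ × Matrix b (a ⊕ b) ℝ =>
      f (fun i => (fromRows q.1 q.2) ((shf a b κ).symm i))) := hg.comp meas_fromRows
  refine (int_cols _ hg2.lintegral_prod_right').trans ?_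
  refine lintegral_congr fun Z1 => lintegral_congr fun T => ?_
  refine (int_cols _ (hg2.comp measurable_prodMk_left)).trans ?_
  refine lintegral_congr fun X => lintegral_congr fun A => ?_
  have : (fun i => (fromRows (fromCols Z1 T) (fromCols X A)) ((shf a b κ).symm i) :
      Matrix ((a ⊕ b) ⊕ κ) (a ⊕ b) ℝ) = asm Z1 T X A := by
    ext i j
    rcases i with (i | i) | i <;> rcases j with j | j <;> rfl
  exact congrArg f this

end Pool.Agent.H38.TO
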