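import Pool.Agent.H84.TO.TargetsH

open MeasureTheory Matrix Polynomial Filter Topology
open scoped ENNReal

namespace Pool.Agent.H38.TO

open Pool.Agent.H84.TO

section det
variable {K M N : Type} [AddCommGroup K] [Module ℝ K] [AddCommGroup M] [Module ℝ M]
  [AddCommGroup N] [Module ℝ N]

theorem det_of_equiv (e : M ≃ₗ[ℝ] N) (f : M →ₗ[ℝ] M) (g : N →ₗ[ℝ] N)
    (h : ∀ x, e (f x) = g (e x)) : LinearMap.det f = LinearMap.det g := by
  rw [← LinearMap.det_conj f e]
  congr 1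
  ext x
  simp [h]

theorem det_ker [FiniteDimensional ℝ M] (p : M →ₗ[ℝ] N) (hp : Function.Surjective p)
    (f : M →ₗ[ℝ] M) (g : N →ₗ[ℝ] N) (h : ∀ x, p (f x) = g (p x))
    (he : LinearMap.ker p ≤ (LinearMap.ker p).comap f) :
    LinearMap.det f = LinearMap.det (f.restrict he) * LinearMap.det g := by
  rw [LinearMap.det_eq_det_mul_det (LinearMap.ker p) f he]
  congr 1
  apply det_of_equiv (p.quotKerEquivOfSurjective hp)
  intro x
  obtain ⟨y, rfl⟩ := Submodule.Quotient.mk_surjective _ x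
  rw [Submodule.mapQ_apply]
  exact h y

theorem det_exact [FiniteDimensional ℝ M] (i : K →ₗ[ℝ] M) (p : M →ₗ[ℝ] N)
    (hi : Function.Injective i) (hp : Function.Surjective p)
    (hex : LinearMap.range i = LinearMap.ker p)
    (f : M →ₗ[ℝ] M) (k : K →ₗ[ℝ] K) (g : N →ₗ[ℝ] N) (h1 : ∀ x, f (i x) = i (k x))
    (h2 : ∀ x, p (f x) = g (p x)) :
    LinearMap.det f = LinearMap.det k * LinearMap.det g := by
  have he : LinearMap.ker p ≤ (LinearMap.ker p).comap f := by
    intro x hx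
    rw [Submodule.mem_comap, LinearMap.mem_ker, h2, LinearMap.mem_ker.1 hx, map_zero]
  rw [det_ker p hp f g h2 he]
  congr 1
  symm
  apply det_of_equiv ((LinearEquiv.ofInjective i hi).trans (LinearEquiv.ofEq _ _ hex))
  intro x
  apply Subtype.ext
  exact (h1 x).symm
end det

section
variable {a b : Type} [Fintype a] [DecidableEq a] [Fintype b] [DecidableEq b]

omit [DecidableEq a] [DecidableEq b] in
theorem sylv_blocks (Z : Matrix a a ℝ) (A12 : Matrix a b ℝ) (A : Matrix b b ℝ)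
    (Q11 : Matrix a a ℝ) (Q12 : Matrix a b ℝ) (Q21 : Matrix b a ℝ) (Q22 : Matrix b b ℝ) :
    sylv (fromBlocks Z A12 0 A) (fromBlocks Z A12 0 A) (fromBlocks Q11 Q12 Q21 Q22) =
      fromBlocks (sylv Z Z Q11) (sylv Z A Q12 - Zᵀ * Q11 * A12)
        (Q21 - Aᵀ * Q21 * Z - A12ᵀ * Q11 * Z)
        (sylv A A Q22 - (A12ᵀ * Q11 * A12 + A12ᵀ * Q12 * A + Aᵀ * Q21 * A12)) := by
  change fromBlocks Q11 Q12 Q21 Q22 - (fromBlocks Z A12 0 A)ᵀ * fromBlocks Q11 Q12 Q21 Q22 *
    fromBlocks Z A12 0 A = fromBlocks (Q11 - Zᵀ * Q11 * Z) (Q12 - Zᵀ * Q12 * A - Zᵀ * Q11 * A12)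
        (Q21 - Aᵀ * Q21 * Z - A12ᵀ * Q11 * Z)
        (Q22 - Aᵀ * Q22 * A - (A12ᵀ * Q11 * A12 + A12ᵀ * Q12 * A + Aᵀ * Q21 * A12))
  rw [fromBlocks_transpose, fromBlocks_multiply, fromBlocks_multiply, sub_eq_add_neg,
    fromBlocks_neg, fromBlocks_add]
  congr 1 <;> simp [Matrix.add_mul] <;> abel

/-- block `11` -/
def p11 (a b : Type) [Fintype a] [Fintype b] : Sy (a ⊕ b) →ₗ[ℝ] Sy a where
  toFun Q := ⟨Q.1.toBlocks₁₁, by
    ext i j
    exact congrFun (congrFun Q.2 (Sum.inl i)) (Sum.inl j)⟩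
  map_add' P Q := by rfl
  map_smul' c Q := by rfl

/-- block `12` -/
def p12 (a b : Type) [Fintype a] [Fintype b] : LinearMap.ker (p11 a b) →ₗ[ℝ] Matrix a b ℝ where
  toFun Q := Q.1.1.toBlocks₁₂
  map_add' P Q := by rfl
  map_smul' c Q := by rfl

/-- block `22` -/
def i22 (a b : Type) [Fintype a] [Fintype b] : Sy b →ₗ[ℝ] LinearMap.ker (p11 a b) where
  toFun Q := ⟨⟨fromBlocks 0 0 0 Q.1, by
    change (fromBlocks 0 0 0 Q.1)ᵀ = fromBlocks 0 0 0 Q.1
    rw [fromBlocks_transpose]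
    have : (Q.1)ᵀ = Q.1 := Q.2
    rw [this]
    simp⟩, by
    rw [LinearMap.mem_ker]
    rfl⟩
  map_add' P Q := by
    apply Subtype.ext
    apply Subtype.ext
    change fromBlocks 0 0 0 (P.1 + Q.1) = fromBlocks 0 0 0 P.1 + fromBlocks 0 0 0 Q.1
    rw [fromBlocks_add]
    simp
  map_smul' c Q := by
    apply Subtype.ext
    apply Subtype.ext
    change fromBlocks 0 0 0 (c • Q.1) = c • fromBlocks 0 0 0 Q.1
    rw [fromBlocks_smul]
    simp

theorem detS_eq (Z : Matrix a a ℝ) (A12 : Matrix a b ℝ) (A : Matrix b b ℝ) :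
    detS (fromBlocks Z A12 0 A) = detS Z * detS A * LinearMap.det (sylv Z A) := by
  set f := (sylv (fromBlocks Z A12 0 A) (fromBlocks Z A12 0 A)).restrict
    (sylv_mem (fromBlocks Z A12 0 A)) with hf
  set g := (sylv Z Z).restrict (sylv_mem Z) with hg
  set k := (sylv A A).restrict (sylv_mem A) with hk
  have hval : ∀ Q : Sy (a ⊕ b), ((f Q : Sy (a ⊕ b)) : Matrix (a ⊕ b) (a ⊕ b) ℝ) =
      fromBlocks (sylv Z Z Q.1.toBlocks₁₁) (sylv Z A Q.1.toBlocks₁₂ - Zᵀ * Q.1.toBlocks₁₁ * A12)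
        (Q.1.toBlocks₂₁ - Aᵀ * Q.1.toBlocks₂₁ * Z - A12ᵀ * Q.1.toBlocks₁₁ * Z)
        (sylv A A Q.1.toBlocks₂₂ - (A12ᵀ * Q.1.toBlocks₁₁ * A12 + A12ᵀ * Q.1.toBlocks₁₂ * A +
          Aᵀ * Q.1.toBlocks₂₁ * A12)) := by
    intro Q
    rw [← sylv_blocks, fromBlocks_toBlocks]
    rfl
  have h1 : ∀ Q, p11 a b (f Q) = g (p11 a b Q) := by
    intro Q
    apply Subtype.ext
    change ((f Q : Sy (a ⊕ b)) : Matrix (a ⊕ b) (a ⊕ b) ℝ).toBlocks₁₁ = sylv Z Z Q.1.toBlocks₁₁
    rw [hval, toBlocks_fromBlocks₁₁]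
  have hp : Function.Surjective (p11 a b) := by
    intro Q
    refine ⟨⟨fromBlocks Q.1 0 0 0, ?_⟩, ?_⟩
    · change (fromBlocks Q.1 0 0 0)ᵀ = fromBlocks Q.1 0 0 0
      rw [fromBlocks_transpose]
      have : (Q.1)ᵀ = Q.1 := Q.2
      rw [this]
      simp
    · rfl
  have he : LinearMap.ker (p11 a b) ≤ (LinearMap.ker (p11 a b)).comap f := by
    intro x hx
    rw [Submodule.mem_comap, LinearMap.mem_ker, h1, LinearMap.mem_ker.1 hx, map_zero]
  let f' : LinearMap.ker (p11 a b) →ₗ[ℝ] LinearMap.ker (p11 a b) :=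
    LinearMap.restrict (p := LinearMap.ker (p11 a b)) (q := LinearMap.ker (p11 a b)) f he
  have e1 : LinearMap.det f = LinearMap.det (M := LinearMap.ker (p11 a b)) f' *
      LinearMap.det g := det_ker (p11 a b) hp f g h1 he
  have hz : ∀ Q : LinearMap.ker (p11 a b), Q.1.1.toBlocks₁₁ = 0 := by
    intro Q
    exact congrArg Subtype.val (LinearMap.mem_ker.1 Q.2)
  have hz' : ∀ Q : LinearMap.ker (p11 a b), Q.1.1.toBlocks₂₁ = (Q.1.1.toBlocks₁₂)ᵀ := by
    intro Q
    ext i j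
    exact (congrFun (congrFun Q.1.2 (Sum.inr i)) (Sum.inl j)).symm
  have e2 : LinearMap.det (M := LinearMap.ker (p11 a b)) f' =
      LinearMap.det k * LinearMap.det (sylv Z A) := by
    apply det_exact (i22 a b) (p12 a b)
    · intro P Q hPQ
      apply Subtype.ext
      have := congrArg (fun R : LinearMap.ker (p11 a b) => R.1.1.toBlocks₂₂) hPQ
      exact this
    · intro Q
      refine ⟨⟨⟨fromBlocks 0 Q Qᵀ 0, ?_⟩, ?_⟩, ?_⟩
      · change (fromBlocks 0 Q Qᵀ 0)ᵀ = fromBlocks 0 Q Qᵀ 0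
        rw [fromBlocks_transpose]
        simp
      · rw [LinearMap.mem_ker]
        rfl
      · rfl
    · ext Q
      constructor
      · rintro ⟨R, rfl⟩
        rw [LinearMap.mem_ker]
        rfl
      · intro hQ
        have h12 : Q.1.1.toBlocks₁₂ = 0 := LinearMap.mem_ker.1 hQ
        refine ⟨⟨Q.1.1.toBlocks₂₂, ?_⟩, ?_⟩
        · ext i j
          exact congrFun (congrFun Q.1.2 (Sum.inr i)) (Sum.inr j)
        · apply Subtype.ext
          apply Subtype.ext
          change fromBlocks 0 0 0 Q.1.1.toBlocks₂₂ = Q.1.1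
          conv_rhs => rw [← fromBlocks_toBlocks Q.1.1, hz Q, hz' Q, h12]
          simp
    · intro Q
      apply Subtype.ext
      apply Subtype.ext
      change ((f (i22 a b Q).1 : Sy (a ⊕ b)) : Matrix (a ⊕ b) (a ⊕ b) ℝ) =
        fromBlocks 0 0 0 (sylv A A Q.1)
      rw [hval]
      change fromBlocks (sylv Z Z 0) (sylv Z A 0 - Zᵀ * 0 * A12)
        (0 - Aᵀ * 0 * Z - A12ᵀ * 0 * Z)
        (sylv A A Q.1 - (A12ᵀ * 0 * A12 + A12ᵀ * 0 * A + Aᵀ * 0 * A12)) = _
      simp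
    · intro Q
      change ((f Q.1 : Sy (a ⊕ b)) : Matrix (a ⊕ b) (a ⊕ b) ℝ).toBlocks₁₂ =
        sylv Z A Q.1.1.toBlocks₁₂
      rw [hval, toBlocks_fromBlocks₁₂, hz Q]
      simp
  change LinearMap.det f = LinearMap.det g * LinearMap.det k * LinearMap.det (sylv Z A)
  rw [e1, e2]
  ring
end

theorem bls : T_BLS := by
  intro a b _ _ _ _ Z A12 A
  refine ⟨detS_eq Z A12 A, ?_, ?_⟩
  · intro h
    have surj : ∀ {m n : Type} [Fintype m] [Fintype n] (P : Matrix m m ℝ) (Q : Matrix n n ℝ),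
        Function.Injective (sylv P Q) → Function.Surjective (sylv P Q) := by
      intro m n _ _ P Q h
      exact LinearMap.injective_iff_surjective.1 h
    have hA : Function.Injective (sylv A A) := by
      rw [injective_iff_map_eq_zero]
      intro Q hQ
      have h0 : sylv (fromBlocks Z A12 0 A) (fromBlocks Z A12 0 A) (fromBlocks 0 0 0 Q) = 0 := by
        rw [sylv_blocks, hQ]
        simp
      have := (injective_iff_map_eq_zero _).1 h _ h0
      have := congrArg toBlocks₂₂ this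
      exact this
    have hZA : Function.Injective (sylv Z A) := by
      rw [injective_iff_map_eq_zero]
      intro Q hQ
      obtain ⟨R, hR⟩ := surj A A hA (A12ᵀ * Q * A)
      have h0 : sylv (fromBlocks Z A12 0 A) (fromBlocks Z A12 0 A) (fromBlocks 0 Q 0 R) = 0 := by
        rw [sylv_blocks, hQ, hR]
        simp
      have := (injective_iff_map_eq_zero _).1 h _ h0
      have := congrArg toBlocks₁₂ this
      exact this
    have hZ : Function.Injective (sylv Z Z) := by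
      rw [injective_iff_map_eq_zero]
      intro Q hQ
      obtain ⟨P, hP⟩ := surj Z A hZA (Zᵀ * Q * A12)
      obtain ⟨P', hP'⟩ := surj Z A hZA (A12ᵀ * Q * Z)ᵀ
      have hP'' : P'ᵀ - Aᵀ * P'ᵀ * Z = A12ᵀ * Q * Z := by
        have := congrArg transpose hP'
        rw [transpose_transpose] at this
        rw [← this]
        change _ = (P' - Zᵀ * P' * A)ᵀ
        rw [transpose_sub, transpose_mul, transpose_mul, transpose_transpose, Matrix.mul_assoc]
      obtain ⟨R, hR⟩ := surj A A hA (A12ᵀ * Q * A12 + A12ᵀ * P * A + Aᵀ * P'ᵀ * A12)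
      have h0 : sylv (fromBlocks Z A12 0 A) (fromBlocks Z A12 0 A) (fromBlocks Q P P'ᵀ R) = 0 := by
        rw [sylv_blocks, hQ, hR, hP, hP'']
        simp
      have := (injective_iff_map_eq_zero _).1 h _ h0
      have := congrArg toBlocks₁₁ this
      exact this
    exact ⟨hZ, hA, hZA⟩
  · rintro ⟨hZ, hA, hZA⟩
    rw [injective_iff_map_eq_zero]
    intro Q hQ
    rw [← fromBlocks_toBlocks Q, sylv_blocks] at hQ
    have h11 := congrArg toBlocks₁₁ hQ
    have h12 := congrArg toBlocks₁₂ hQ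
    have h21 := congrArg toBlocks₂₁ hQ
    have h22 := congrArg toBlocks₂₂ hQ
    rw [toBlocks_fromBlocks₁₁] at h11
    rw [toBlocks_fromBlocks₁₂] at h12
    rw [toBlocks_fromBlocks₂₁] at h21
    rw [toBlocks_fromBlocks₂₂] at h22
    have q11 : Q.toBlocks₁₁ = 0 := (injective_iff_map_eq_zero _).1 hZ _ h11
    rw [q11] at h12 h21 h22
    have q12 : Q.toBlocks₁₂ = 0 := by
      apply (injective_iff_map_eq_zero _).1 hZA _
      rw [Matrix.mul_zero, Matrix.zero_mul, sub_zero] at h12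
      exact h12
    have q21 : Q.toBlocks₂₁ = 0 := by
      have : (Q.toBlocks₂₁)ᵀ = 0 := by
        apply (injective_iff_map_eq_zero _).1 hZA _
        rw [Matrix.mul_zero, Matrix.zero_mul, sub_zero] at h21
        change (Q.toBlocks₂₁)ᵀ - Zᵀ * (Q.toBlocks₂₁)ᵀ * A = 0
        have h3 := congrArg transpose h21
        rw [transpose_sub, transpose_mul, transpose_mul, transpose_transpose, ← Matrix.mul_assoc]
          at h3
        exact h3
      rw [← transpose_transpose Q.toBlocks₂₁, this, transpose_zero]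
    rw [q12, q21] at h22
    have q22 : Q.toBlocks₂₂ = 0 := by
      apply (injective_iff_map_eq_zero _).1 hA _
      simp only [Matrix.mul_zero, Matrix.zero_mul, add_zero, sub_zero] at h22
      exact h22
    rw [← fromBlocks_toBlocks Q, q11, q12, q21, q22]
    simp

end Pool.Agent.H38.TO
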