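import Pool.Agent.H84.TO.TargetsH

open MeasureTheory Matrix Polynomial Filter Topology
open scoped ENNReal

namespace Pool.Agent.H38.TO

open Pool.Agent.H84.TO

section
variable {a κ : Type} [Fintype a] [DecidableEq a] [Fintype κ] [DecidableEq κ]

theorem solP_eq (Z1 : Matrix (a ⊕ κ) a ℝ) (h : Function.Injective (sylv (top Z1) (top Z1))) :
    solP Z1 - (top Z1)ᵀ * solP Z1 * top Z1 = (bot Z1)ᵀ * bot Z1 := by
  have hs : Function.Surjective (sylv (top Z1) (top Z1)) := LinearMap.injective_iff_surjective.1 h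
  have h1 : solP Z1 = Function.invFun (sylv (top Z1) (top Z1)) ((bot Z1)ᵀ * bot Z1) := by
    rw [solP, if_pos h]
  have h2 := Function.invFun_eq (hs ((bot Z1)ᵀ * bot Z1))
  rw [← h1] at h2
  exact h2

theorem ext_mul (A B : Matrix a a ℝ) : Pool.Agent.H84.TO.ext κ A * Pool.Agent.H84.TO.ext κ B =
    Pool.Agent.H84.TO.ext κ (A * B) := by
  simp [Pool.Agent.H84.TO.ext, fromBlocks_multiply]

theorem ext_one : Pool.Agent.H84.TO.ext κ (1 : Matrix a a ℝ) = 1 := by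
  simp [Pool.Agent.H84.TO.ext]

theorem ext_tr (A : Matrix a a ℝ) : (Pool.Agent.H84.TO.ext κ A)ᵀ = Pool.Agent.H84.TO.ext κ Aᵀ := by
  simp [Pool.Agent.H84.TO.ext, fromBlocks_transpose]

theorem cong_ext (P : Matrix a a ℝ) (Z1 : Matrix (a ⊕ κ) a ℝ) :
    Z1ᵀ * Pool.Agent.H84.TO.ext κ P * Z1 = (top Z1)ᵀ * P * top Z1 + (bot Z1)ᵀ * bot Z1 := by
  conv_lhs => rw [← fromRows_toRows Z1]
  rw [transpose_fromRows, Pool.Agent.H84.TO.ext, fromCols_mul_fromBlocks, fromCols_mul_fromRows]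
  simp
end

theorem cmp (hext : T_EXT) (hsq : T_SQ1) : T_CMP := by
  intro a κ _ _ _ _ Z1 hg
  obtain ⟨hinj, hP⟩ := hg
  have hsol := solP_eq Z1 hinj
  obtain ⟨hR, hRR, -⟩ := hsq a (solP Z1) hP
  set P := solP Z1 with hPdef
  set R := rt P with hRdef
  have hRt : Rᵀ = R := by
    have := hR.isHermitian
    rwa [IsHermitian, conjTranspose_eq_transpose_of_trivial] at this
  have hdet : IsUnit R.det := isUnit_iff_ne_zero.2 hR.det_pos.ne'
  have hRi : R * R⁻¹ = 1 := Matrix.mul_nonsing_inv _ hdet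
  have hiR : R⁻¹ * R = 1 := Matrix.nonsing_inv_mul _ hdet
  have hit : (R⁻¹)ᵀ = R⁻¹ := by rw [transpose_nonsing_inv, hRt]
  have hZP : Z1ᵀ * Pool.Agent.H84.TO.ext κ P * Z1 = P := by
    rw [cong_ext, ← hsol]
    abel
  set V0 : Matrix (a ⊕ κ) a ℝ := Pool.Agent.H84.TO.ext κ R * Z1 * R⁻¹ with hV0
  have hV : V0ᵀ * V0 = 1 := by
    have e1 : V0ᵀ * V0 = R⁻¹ * (Z1ᵀ * (Pool.Agent.H84.TO.ext κ R * Pool.Agent.H84.TO.ext κ R) * Z1)
        * R⁻¹ := by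
      rw [hV0, transpose_mul, transpose_mul, ext_tr, hRt, hit]
      simp only [Matrix.mul_assoc]
    rw [e1, ext_mul, hRR, hZP, ← hRR, ← Matrix.mul_assoc, hiR, Matrix.one_mul, hRi]
  obtain ⟨g, hgV⟩ := hext a κ V0 hV
  have hgg : (g : Matrix (a ⊕ κ) (a ⊕ κ) ℝ)ᵀ * (g : Matrix (a ⊕ κ) (a ⊕ κ) ℝ) = 1 := by
    have := g.2
    rw [Matrix.mem_orthogonalGroup_iff'] at this
    exact this
  set V1 : Matrix (a ⊕ κ) κ ℝ := (g : Matrix (a ⊕ κ) (a ⊕ κ) ℝ) *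
    fromRows (0 : Matrix a κ ℝ) (1 : Matrix κ κ ℝ) with hV1
  have h11 : V1ᵀ * V1 = 1 := by
    rw [hV1, transpose_mul, Matrix.mul_assoc, ← Matrix.mul_assoc _ (g : Matrix (a ⊕ κ) (a ⊕ κ) ℝ),
      hgg, Matrix.one_mul, transpose_fromRows, fromCols_mul_fromRows]
    simp
  have h10 : V1ᵀ * V0 = 0 := by
    rw [hV1, ← hgV, transpose_mul, Matrix.mul_assoc,
      ← Matrix.mul_assoc _ (g : Matrix (a ⊕ κ) (a ⊕ κ) ℝ),
      hgg, Matrix.one_mul, transpose_fromRows, fromCols_mul_fromRows]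
    simp
  refine ⟨Pool.Agent.H84.TO.ext κ R⁻¹ * V1, ?_, ?_⟩
  · have e2 : (Pool.Agent.H84.TO.ext κ R⁻¹ * V1)ᵀ * Pool.Agent.H84.TO.ext κ P *
        (Pool.Agent.H84.TO.ext κ R⁻¹ * V1) = V1ᵀ * (Pool.Agent.H84.TO.ext κ R⁻¹ *
        (Pool.Agent.H84.TO.ext κ P * Pool.Agent.H84.TO.ext κ R⁻¹)) * V1 := by
      rw [transpose_mul, ext_tr, hit]
      simp only [Matrix.mul_assoc]
    rw [e2, ext_mul, ext_mul, ← hRR, Matrix.mul_assoc R R, hRi, Matrix.mul_one, hiR, ext_one,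
      Matrix.mul_one, h11]
  · have e3 : (Pool.Agent.H84.TO.ext κ R⁻¹ * V1)ᵀ * Pool.Agent.H84.TO.ext κ P * Z1
        = V1ᵀ * (Pool.Agent.H84.TO.ext κ R⁻¹ * Pool.Agent.H84.TO.ext κ P) * Z1 := by
      rw [transpose_mul, ext_tr, hit]
      simp only [Matrix.mul_assoc]
    have e4 : Pool.Agent.H84.TO.ext κ R * Z1 = V0 * R := by
      rw [hV0, Matrix.mul_assoc, hiR, Matrix.mul_one]
    rw [e3, ext_mul, ← hRR, ← Matrix.mul_assoc, hiR, Matrix.one_mul, Matrix.mul_assoc, e4,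
      ← Matrix.mul_assoc, h10, Matrix.zero_mul]

end Pool.Agent.H38.TO
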