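import Pool.Agent.H84.TO.TargetsH

open MeasureTheory Matrix Polynomial Filter Topology
open scoped ENNReal

namespace Pool.Agent.H38.TO

open Pool.Agent.H84.TO

theorem ext : T_EXT := by
  intro ι κ _ _ _ _ V hV
  let v : ι ⊕ κ → EuclideanSpace ℝ (ι ⊕ κ) := fun i =>
    Sum.elim (fun j => WithLp.toLp 2 (fun r => V r j)) (fun _ => 0) i
  have hinner : ∀ x y : ι ⊕ κ → ℝ, inner ℝ (WithLp.toLp 2 x : EuclideanSpace ℝ (ι ⊕ κ))
      (WithLp.toLp 2 y) = ∑ r, x r * y r := by
    intro x y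
    rw [PiLp.inner_apply]
    apply Finset.sum_congr rfl
    intro r _
    simp [mul_comm]
  have hon : Orthonormal ℝ ((Set.range (Sum.inl : ι → ι ⊕ κ)).domRestrict v) := by
    rw [orthonormal_iff_ite]
    rintro ⟨_, i, rfl⟩ ⟨_, j, rfl⟩
    simp only [Set.domRestrict_apply, v, Sum.elim_inl]
    rw [hinner]
    have h1 := congrFun (congrFun hV i) j
    rw [Matrix.mul_apply] at h1
    simp only [Matrix.transpose_apply] at h1
    rw [h1, Matrix.one_apply]
    simp
  obtain ⟨b, hb⟩ := hon.exists_orthonormalBasis_extension_of_card_eq (by simp)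
  let g : Matrix (ι ⊕ κ) (ι ⊕ κ) ℝ := fun r c => b c r
  have hg : g ∈ Matrix.orthogonalGroup (ι ⊕ κ) ℝ := by
    rw [Matrix.mem_orthogonalGroup_iff']
    ext i j
    have h2 := (orthonormal_iff_ite.1 b.orthonormal) i j
    have h3 : inner ℝ (b i) (b j) = ∑ r, b i r * b j r := by
      have := hinner (fun r => b i r) (fun r => b j r)
      exact this
    rw [h3] at h2
    rw [Matrix.mul_apply, Matrix.one_apply]
    exact h2
  refine ⟨⟨g, hg⟩, ?_⟩
  ext r j
  have h4 : (g * fromRows (1 : Matrix ι ι ℝ) (0 : Matrix κ ι ℝ)) r j = g r (Sum.inl j) := by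
    rw [Matrix.mul_apply, Fintype.sum_sum_type]
    simp [Matrix.one_apply]
  change (g * fromRows (1 : Matrix ι ι ℝ) (0 : Matrix κ ι ℝ)) r j = V r j
  rw [h4]
  have h5 := hb (Sum.inl j) ⟨j, rfl⟩
  change b (Sum.inl j) r = V r j
  rw [h5]
  rfl

end Pool.Agent.H38.TO
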