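import Pool.Agent.H84.TO.TargetsH

open MeasureTheory Matrix Polynomial Filter Topology
open scoped ENNReal

namespace Pool.Agent.H38.TO

open Pool.Agent.H84.TO

theorem posDef_of_det {ι κ : Type} [Fintype ι] [DecidableEq ι] [Fintype κ]
    (Y : Matrix (ι ⊕ κ) ι ℝ) (h : (top Y).det ≠ 0) : (Yᵀ * Y).PosDef := by
  rw [← conjTranspose_eq_transpose_of_trivial]
  apply Matrix.PosDef.conjTranspose_mul_self
  have hinj : Function.Injective (top Y).mulVec := by
    apply Matrix.mulVec_injective_iff_isUnit.2
    rw [Matrix.isUnit_iff_isUnit_det]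
    exact isUnit_iff_ne_zero.2 h
  intro v w hvw
  apply hinj
  funext i
  exact congrFun hvw (Sum.inl i)

theorem frk (hlin : T_LIN) : T_FRK := by
  intro ι κ _ _ _ _
  have hZ : MeasurableSet {Y : Matrix (ι ⊕ κ) ι ℝ | (top Y).det = 0} := by
    have hc : Continuous (fun Y : Matrix (ι ⊕ κ) ι ℝ => (top Y).det) := by
      apply Continuous.matrix_det
      exact continuous_pi fun i => continuous_pi fun j => by
        exact (continuous_apply j).comp (continuous_apply (Sum.inl i))
    exact (isClosed_eq hc continuous_const).measurableSet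
  have h0 := (hlin (ι ⊕ κ) ι _ hZ).1 ⟨fromRows 1 0, fun x => by
    have hfin : {t : ℝ | x + t • fromRows (1 : Matrix ι ι ℝ) (0 : Matrix κ ι ℝ) ∈
        {Y : Matrix (ι ⊕ κ) ι ℝ | (top Y).det = 0}} ⊆ {t : ℝ | ((-(top x)).charpoly).IsRoot t} := by
      intro t ht
      simp only [Set.mem_setOf_eq] at ht ⊢
      rw [Polynomial.IsRoot.def, Matrix.eval_charpoly]
      have : (Matrix.scalar ι t - -(top x)) =
          top (x + t • fromRows (1 : Matrix ι ι ℝ) (0 : Matrix κ ι ℝ)) := by
        ext i j
        by_cases hij : i = j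
        · subst hij
          simp [Matrix.toRows₁, add_comm]
        · simp [Matrix.toRows₁, hij]
      rw [this]
      exact ht
    have hf : ({t : ℝ | ((-(top x)).charpoly).IsRoot t}).Finite :=
      Polynomial.finite_setOf_isRoot (Matrix.charpoly_monic _).ne_zero
    exact (hf.subset hfin).measure_zero _⟩
  have h1 : ∀ᵐ Y : Matrix (ι ⊕ κ) ι ℝ, ¬ ((top Y).det = 0) := by
    rw [ae_iff]
    simpa using h0
  filter_upwards [h1] with Y hY
  exact ⟨hY, posDef_of_det Y hY⟩

end Pool.Agent.H38.TO
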