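import Pool.Agent.H84.TO.TargetsH

open MeasureTheory Matrix Polynomial Filter Topology
open scoped ENNReal

namespace Pool.Agent.H38.TO

open Pool.Agent.H84.TO

theorem ae_slice {m n : Type} [Fintype m] [Fintype n] (S : Set (Matrix m n ℝ × ℝ))
    (hS : MeasurableSet S) (h : ∀ x : Matrix m n ℝ, volume {t : ℝ | (x, t) ∈ S} = 0) :
    ∀ᵐ t : ℝ, volume {x : Matrix m n ℝ | (x, t) ∈ S} = 0 := by
  have h1 : ((volume : Measure (Matrix m n ℝ)).prod (volume : Measure ℝ)) S = 0 := by
    rw [Measure.measure_prod_null hS]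
    filter_upwards with x
    exact h x
  have h2 : ((volume : Measure ℝ).prod (volume : Measure (Matrix m n ℝ))) (Prod.swap ⁻¹' S) = 0 := by
    rw [← Measure.prod_swap, Measure.map_apply measurable_swap (measurable_swap hS)]
    have : Prod.swap ⁻¹' (Prod.swap ⁻¹' S) = S := by
      ext ⟨x, y⟩
      simp
    rw [this]
    exact h1
  rw [Measure.measure_prod_null (measurable_swap hS)] at h2
  filter_upwards [h2] with t ht
  exact ht

theorem lin : T_LIN := by
  intro m n _ _ Z hZ
  constructor
  · rintro ⟨v, hv⟩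
    have hS : MeasurableSet {p : Matrix m n ℝ × ℝ | p.1 + p.2 • v ∈ Z} := by
      have : Measurable (fun p : Matrix m n ℝ × ℝ => p.1 + p.2 • v) := by
        apply Continuous.measurable
        fun_prop
      exact this hZ
    have h := ae_slice _ hS hv
    obtain ⟨t, ht⟩ := h.exists
    have h3 : {x : Matrix m n ℝ | (x, t) ∈ {p : Matrix m n ℝ × ℝ | p.1 + p.2 • v ∈ Z}} =
        (fun x => x + t • v) ⁻¹' Z := rfl
    rw [h3, measure_preimage_add_right] at ht
    exact ht
  · intro hv
    have hS : MeasurableSet {p : Matrix m n ℝ × ℝ | p.2 • p.1 ∈ Z} := by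
      have : Measurable (fun p : Matrix m n ℝ × ℝ => p.2 • p.1) := by
        apply Continuous.measurable
        fun_prop
      exact this hZ
    have h := ae_slice _ hS hv
    have h0 : ∀ᵐ t : ℝ, t ≠ 0 := Measure.ae_ne volume 0
    obtain ⟨t, ht, ht0⟩ := (h.and h0).exists
    have h3 : {x : Matrix m n ℝ | (x, t) ∈ {p : Matrix m n ℝ × ℝ | p.2 • p.1 ∈ Z}} =
        (fun x => t • x) ⁻¹' Z := rfl
    rw [h3] at ht
    have key := Measure.addHaar_preimage_smul (E := m → n → ℝ) volume ht0 (show Set (m → n → ℝ) from Z)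
    have ht2 := key.symm.trans ht
    rcases mul_eq_zero.1 ht2 with h4 | h4
    · exfalso
      rw [ENNReal.ofReal_eq_zero] at h4
      have : 0 < |(t ^ Module.finrank ℝ (m → n → ℝ))⁻¹| := by positivity
      linarith
    · exact h4

end Pool.Agent.H38.TO
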