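import Pool.Agent.H84.TO.TargetsR

open MeasureTheory Matrix Polynomial Filter Topology

namespace Pool.Agent.H38.TO

open Pool.Agent.H84.TO

section ring
variable {R S : Type} [CommRing R] [CommRing S]

/-- complete homogeneous polynomials over a ring -/
def hr (t d : R) : ℕ → R
  | 0 => 1
  | 1 => t
  | (r + 2) => t * hr t d (r + 1) - d * hr t d r

theorem hr_map (φ : R →+* S) (t d : R) : ∀ r, φ (hr t d r) = hr (φ t) (φ d) r
  | 0 => by simp [hr]
  | 1 => by simp [hr]
  | (r + 2) => by
    rw [hr, hr, map_sub, map_mul, map_mul, hr_map φ t d r, hr_map φ t d (r + 1)]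

theorem hr_geom (x y : R) : ∀ r, (y - x) * hr (x + y) (x * y) r = y ^ (r + 1) - x ^ (r + 1)
  | 0 => by simp [hr]
  | 1 => by simp only [hr]; ring
  | (r + 2) => by
    have h1 := hr_geom x y r
    have h2 := hr_geom x y (r + 1)
    rw [hr]
    linear_combination (x + y) * h2 - x * y * h1

/-- the antisymmetric quotient over a ring -/
def sr (j k : ℕ) (x y : R) : R :=
  if j < k then (x * y) ^ j * hr (x + y) (x * y) (k - j - 1)
  else if k < j then -((x * y) ^ k * hr (x + y) (x * y) (j - k - 1)) else 0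

theorem sr_map (φ : R →+* S) (j k : ℕ) (x y : R) : φ (sr j k x y) = sr j k (φ x) (φ y) := by
  rw [sr, sr]
  split_ifs <;> simp [hr_map]

theorem sr_mul (j k : ℕ) (x y : R) : (y - x) * sr j k x y = x ^ j * y ^ k - x ^ k * y ^ j := by
  rw [sr]
  split_ifs with h1 h2
  · obtain ⟨m, rfl⟩ := Nat.exists_eq_add_of_lt h1
    have := hr_geom x y m
    rw [show j + m + 1 - j - 1 = m by omega]
    linear_combination (x * y) ^ j * this
  · obtain ⟨m, rfl⟩ := Nat.exists_eq_add_of_lt h2
    have := hr_geom x y m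
    rw [show k + m + 1 - k - 1 = m by omega]
    linear_combination -(x * y) ^ k * this
  · have : j = k := by omega
    subst this
    ring

variable {n : ℕ}

/-- alternating sum -/
def Psi (F : Fin n → (Fin n ⊕ Fin n) → (Fin n ⊕ Fin n) → R) : R :=
  ∑ σ : Equiv.Perm (Fin n ⊕ Fin n), ((Equiv.Perm.sign σ : ℤ) : R) *
    ∏ i, F i (σ (Sum.inl i)) (σ (Sum.inr i))

theorem Psi_swap (F : Fin n → (Fin n ⊕ Fin n) → (Fin n ⊕ Fin n) → R) (i : Fin n) :
    Psi (Function.update F i (fun a b => F i b a)) = - Psi F := by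
  rw [Psi, Psi, ← Finset.sum_neg_distrib,
    ← Equiv.sum_comp (Equiv.mulRight (Equiv.swap (Sum.inl i) (Sum.inr i)))]
  apply Finset.sum_congr rfl
  intro σ _
  have h1 : (Equiv.mulRight (Equiv.swap (Sum.inl i) (Sum.inr i))) σ =
      σ * Equiv.swap (Sum.inl i) (Sum.inr i) := rfl
  rw [h1, Equiv.Perm.sign_mul, Equiv.Perm.sign_swap (by simp)]
  have h2 : ∏ k, Function.update F i (fun a b => F i b a) k
      ((σ * Equiv.swap (Sum.inl i) (Sum.inr i)) (Sum.inl k))
      ((σ * Equiv.swap (Sum.inl i) (Sum.inr i)) (Sum.inr k)) =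
      ∏ k, F k (σ (Sum.inl k)) (σ (Sum.inr k)) := by
    apply Finset.prod_congr rfl
    intro k _
    by_cases hk : k = i
    · subst hk
      rw [Function.update_self, Equiv.Perm.mul_apply, Equiv.Perm.mul_apply,
        Equiv.swap_apply_left, Equiv.swap_apply_right]
    · rw [Function.update_of_ne hk, Equiv.Perm.mul_apply, Equiv.Perm.mul_apply,
        Equiv.swap_apply_of_ne_of_ne (by simpa using hk) (by simp),
        Equiv.swap_apply_of_ne_of_ne (by simp) (by simpa using hk)]
  rw [h2]
  push_cast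
  ring

theorem prod_upd (F : Fin n → (Fin n ⊕ Fin n) → (Fin n ⊕ Fin n) → R) (i : Fin n)
    (G : (Fin n ⊕ Fin n) → (Fin n ⊕ Fin n) → R) (a b : Fin n → Fin n ⊕ Fin n) :
    ∏ k, Function.update F i G k (a k) (b k) =
      G (a i) (b i) * ∏ k ∈ Finset.univ.erase i, F k (a k) (b k) := by
  rw [← Finset.mul_prod_erase Finset.univ _ (Finset.mem_univ i), Function.update_self]
  congr 1
  apply Finset.prod_congr rfl
  intro k hk
  rw [Function.update_of_ne (Finset.ne_of_mem_erase hk)]

theorem Psi_diff (F : Fin n → (Fin n ⊕ Fin n) → (Fin n ⊕ Fin n) → R) (i : Fin n) :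
    Psi (Function.update F i (fun a b => F i a b - F i b a)) = 2 * Psi F := by
  have h1 : Psi (Function.update F i (fun a b => F i a b - F i b a)) =
      Psi F - Psi (Function.update F i (fun a b => F i b a)) := by
    rw [Psi, Psi, Psi, ← Finset.sum_sub_distrib]
    apply Finset.sum_congr rfl
    intro σ _
    have h2 := prod_upd F i (F i) (fun k => σ (Sum.inl k)) (fun k => σ (Sum.inr k))
    rw [Function.update_eq_self] at h2
    rw [prod_upd F i _ (fun k => σ (Sum.inl k)) (fun k => σ (Sum.inr k)),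
      prod_upd F i _ (fun k => σ (Sum.inl k)) (fun k => σ (Sum.inr k)), h2]
    ring
  rw [h1, Psi_swap]
  ring

theorem Psi_all (F : Fin n → (Fin n ⊕ Fin n) → (Fin n ⊕ Fin n) → R) (s : Finset (Fin n)) :
    Psi (fun i => if i ∈ s then (fun a b => F i a b - F i b a) else F i) =
      2 ^ s.card * Psi F := by
  induction s using Finset.induction_on with
  | empty => simp
  | insert i s hi ih =>
    rw [Finset.card_insert_of_notMem hi, pow_succ', mul_assoc, ← ih, ← Psi_diff _ i]
    congr 1
    funext k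
    by_cases hk : k = i
    · subst hk
      simp [hi]
    · rw [Function.update_of_ne hk]
      simp [hk]

/-- the order of the columns -/
def eo (n : ℕ) (r : Fin n ⊕ Fin n) : Fin (2 * n) :=
  ⟨ee r, by
    rcases r with i | i
    · have := i.2
      simp only [ee, Sum.elim_inl]
      omega
    · have := i.2
      simp only [ee, Sum.elim_inr]
      omega⟩

theorem eo_bij (n : ℕ) : Function.Bijective (eo n) := by
  rw [Fintype.bijective_iff_injective_and_card]
  constructor
  · intro r s h
    have h1 : ee r = ee s := congrArg Fin.val h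
    rcases r with i | i <;> rcases s with j | j <;> simp only [ee, Sum.elim_inl, Sum.elim_inr] at h1
    · congr 1
      apply Fin.ext
      omega
    · omega
    · omega
    · congr 1
      apply Fin.ext
      omega
  · simp
    ring

theorem det_vd (x y : Fin n → R) :
    (Matrix.of fun r c : Fin n ⊕ Fin n => (Sum.elim x y r) ^ (ee c)).det =
      (∏ i, (y i - x i)) * ∏ i : Fin n, ∏ j ∈ Finset.Ioi i,
        (x i - x j) * (x i - y j) * ((y i - x j) * (y i - y j)) := by
  set e : Fin n ⊕ Fin n ≃ Fin (2 * n) := Equiv.ofBijective (eo n) (eo_bij n) with he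
  have hev : ∀ r, ((e r : Fin (2 * n)) : ℕ) = ee r := fun r => rfl
  set z : Fin n ⊕ Fin n → R := Sum.elim x y with hz
  have h1 : (Matrix.of fun r c : Fin n ⊕ Fin n => (z r) ^ (ee c)) =
      (vandermonde (z ∘ e.symm)).submatrix e e := by
    ext r c
    simp [vandermonde_apply, hev]
  rw [h1, det_submatrix_equiv_self, det_vandermonde]
  have h2 : ∏ i : Fin (2 * n), ∏ j ∈ Finset.Ioi i, ((z ∘ e.symm) j - (z ∘ e.symm) i) =
      ∏ r, ∏ s, if e r < e s then z s - z r else 1 := by
    rw [← Equiv.prod_comp e]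
    apply Finset.prod_congr rfl
    intro r _
    have : Finset.Ioi (e r) = Finset.univ.filter (fun j => e r < j) := by
      ext j
      simp
    rw [this, Finset.prod_filter, ← Equiv.prod_comp e]
    apply Finset.prod_congr rfl
    intro s _
    simp
  have hlt : ∀ r s, e r < e s ↔ ee r < ee s := fun r s => Iff.rfl
  rw [h2, Fintype.prod_sum_type]
  simp only [Fintype.prod_sum_type, hlt, ee, Sum.elim_inl, Sum.elim_inr, hz]
  rw [← Finset.prod_mul_distrib, ← Finset.prod_mul_distrib]
  apply Finset.prod_congr rfl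
  intro i _
  have h3 : Finset.Ioi i = Finset.univ.filter (fun j => i < j) := by
    ext j
    simp
  rw [h3, Finset.prod_filter]
  have h4 : ∏ j : Fin n, (if 2 * (i : ℕ) < 2 * (j : ℕ) + 1 then y j - x i else 1) =
      (y i - x i) * ∏ j : Fin n, (if i < j then y j - x i else 1) := by
    have : ∀ j : Fin n, (if 2 * (i : ℕ) < 2 * (j : ℕ) + 1 then y j - x i else 1) =
        (if i = j then y j - x i else 1) * (if i < j then y j - x i else 1) := by
      intro j
      rcases lt_trichotomy i j with h | h | h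
      · rw [if_pos (by have := Fin.lt_def.1 h; omega), if_neg h.ne, if_pos h, one_mul]
      · subst h
        simp
      · rw [if_neg (by have := Fin.lt_def.1 h; omega), if_neg h.ne', if_neg (not_lt.2 h.le),
          one_mul]
    rw [Finset.prod_congr rfl fun j _ => this j, Finset.prod_mul_distrib]
    congr 1
    simp
  rw [h4, mul_assoc, mul_assoc, mul_left_comm]
  congr 1
  simp only [← Finset.prod_mul_distrib]
  apply Finset.prod_congr rfl
  intro j _
  by_cases h : i < j
  · have h5 := Fin.lt_def.1 h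
    rw [if_pos (by omega), if_pos h, if_pos (by omega), if_pos (by omega), if_pos h]
    ring
  · have h5 : ¬ ((i : ℕ) < j) := h
    rw [if_neg (by omega), if_neg h, if_neg (by omega), if_neg (by omega), if_neg h]
    ring

theorem vdm_ring (x y : Fin n → R) :
    (∏ i, (y i - x i)) * (2 ^ n * ∏ i : Fin n, ∏ j ∈ Finset.Ioi i,
        (x i - x j) * (x i - y j) * ((y i - x j) * (y i - y j))) =
      (∏ i, (y i - x i)) * ∑ σ : Equiv.Perm (Fin n ⊕ Fin n), ((Equiv.Perm.sign σ : ℤ) : R) *
        ∏ i, sr (ee (σ (Sum.inl i))) (ee (σ (Sum.inr i))) (x i) (y i) := by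
  have h1 := Psi_all (R := R) (fun i (a b : Fin n ⊕ Fin n) => x i ^ ee a * y i ^ ee b) Finset.univ
  simp only [Finset.mem_univ, if_true, Finset.card_univ, Fintype.card_fin] at h1
  have h2 : Psi (R := R) (fun i (a b : Fin n ⊕ Fin n) => x i ^ ee a * y i ^ ee b) =
      (Matrix.of fun r c : Fin n ⊕ Fin n => (Sum.elim x y r) ^ (ee c)).det := by
    rw [← det_transpose, det_apply', Psi]
    apply Finset.sum_congr rfl
    intro σ _
    congr 1
    rw [Fintype.prod_sum_type, Finset.prod_mul_distrib]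
    rfl
  rw [mul_left_comm, ← det_vd, ← h2, ← h1, Psi, Finset.mul_sum]
  apply Finset.sum_congr rfl
  intro σ _
  rw [mul_left_comm, ← Finset.prod_mul_distrib]
  congr 1
  apply Finset.prod_congr rfl
  intro i _
  rw [sr_mul]
end ring

/-- the identity in every commutative ring -/
theorem vdm_all {R : Type} [CommRing R] {n : ℕ} (x y : Fin n → R) :
    2 ^ n * ∏ i : Fin n, ∏ j ∈ Finset.Ioi i,
        (x i - x j) * (x i - y j) * ((y i - x j) * (y i - y j)) =
      ∑ σ : Equiv.Perm (Fin n ⊕ Fin n), ((Equiv.Perm.sign σ : ℤ) : R) *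
        ∏ i, sr (ee (σ (Sum.inl i))) (ee (σ (Sum.inr i))) (x i) (y i) := by
  have h := vdm_ring (R := MvPolynomial (Fin n ⊕ Fin n) ℤ) (fun i => MvPolynomial.X (Sum.inl i))
    (fun i => MvPolynomial.X (Sum.inr i))
  have h0 : (∏ i : Fin n, ((MvPolynomial.X (Sum.inr i) : MvPolynomial (Fin n ⊕ Fin n) ℤ) -
      MvPolynomial.X (Sum.inl i))) ≠ 0 := by
    rw [Finset.prod_ne_zero_iff]
    intro i _ h1
    have := MvPolynomial.X_injective (R := ℤ) (sub_eq_zero.1 h1)
    simp at this
  have h2 := mul_left_cancel₀ h0 h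
  obtain ⟨φ, hx, hy⟩ : ∃ φ : MvPolynomial (Fin n ⊕ Fin n) ℤ →+* R,
      (∀ i, φ (MvPolynomial.X (Sum.inl i)) = x i) ∧ ∀ i, φ (MvPolynomial.X (Sum.inr i)) = y i :=
    ⟨MvPolynomial.eval₂Hom (Int.castRingHom R) (Sum.elim x y), fun i => by simp, fun i => by simp⟩
  have h3 := congrArg φ h2
  simp only [map_mul, map_pow, map_ofNat, map_prod, map_sum, map_sub, map_intCast, sr_map, hx,
    hy] at h3
  exact h3

theorem hh_cast (t d : ℝ) : ∀ r, ((hh t d r : ℝ) : ℂ) = hr (t : ℂ) (d : ℂ) r
  | 0 => by simp [hh, hr]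
  | 1 => by simp [hh, hr]
  | (r + 2) => by
    rw [hh, hr]
    push_cast
    rw [hh_cast t d r, hh_cast t d (r + 1)]

theorem roots2 (t d : ℝ) : ∃ x y : ℂ, x + y = t ∧ x * y = d := by
  obtain ⟨s, hs⟩ := IsAlgClosed.exists_pow_nat_eq ((t : ℂ) ^ 2 - 4 * d) (n := 2) (by norm_num)
  refine ⟨(t + s) / 2, (t - s) / 2, by ring, ?_⟩
  linear_combination -(1 / 4 : ℂ) * hs

theorem Rs_cast (B B' : Matrix (Fin 2) (Fin 2) ℝ) (x y x' y' : ℂ) (h1 : x + y = B.trace)
    (h2 : x * y = B.det) (h3 : x' + y' = B'.trace) (h4 : x' * y' = B'.det) :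
    ((Rs B.charpoly B'.charpoly : ℝ) : ℂ) =
      (x - x') * (x - y') * ((y - x') * (y - y')) := by
  have key : ∀ (C' : Matrix (Fin 2) (Fin 2) ℝ) (u v : ℂ), u + v = C'.trace → u * v = C'.det →
      C'.charpoly.map Complex.ofRealHom = (X - C u) * (X - C v) := by
    intro C' u v h5 h6
    rw [Matrix.charpoly_fin_two]
    simp only [Polynomial.map_add, Polynomial.map_sub, Polynomial.map_pow, Polynomial.map_X,
      Polynomial.map_mul, Polynomial.map_C]
    have e1 : (Complex.ofRealHom C'.trace : ℂ) = u + v := h5.symm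
    have e2 : (Complex.ofRealHom C'.det : ℂ) = u * v := h6.symm
    rw [e1, e2]
    simp only [map_add, map_mul]
    ring
  have hd : ∀ C' : Matrix (Fin 2) (Fin 2) ℝ, C'.charpoly.natDegree = 2 := by
    intro C'
    rw [Matrix.charpoly_natDegree_eq_dim, Fintype.card_fin]
  have e3 : ((Rs B.charpoly B'.charpoly : ℝ) : ℂ) =
      resultant (B.charpoly.map Complex.ofRealHom) (B'.charpoly.map Complex.ofRealHom) 2 2 := by
    rw [resultant_map_map, Rs, hd, hd]
    rfl
  rw [e3, key B x y h1 h2, key B' x' y' h3 h4]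
  have hdeg : ((X - C x') * (X - C y')).natDegree ≤ 2 := by
    rw [natDegree_mul (X_sub_C_ne_zero _) (X_sub_C_ne_zero _), natDegree_X_sub_C,
      natDegree_X_sub_C]
  have e4 := resultant_mul_left (X - C x) (X - C y) ((X - C x') * (X - C y')) 2 hdeg
  rw [natDegree_X_sub_C, natDegree_X_sub_C, resultant_X_sub_C_left _ _ _ hdeg,
    resultant_X_sub_C_left _ _ _ hdeg] at e4
  rw [show (2 : ℕ) = 1 + 1 from rfl] at *
  rw [e4]
  simp

theorem vdm : T_VDM := by
  intro n B
  choose x y h1 h2 using fun i => roots2 (B i).trace (B i).det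
  have h := vdm_all x y
  have hs : ∀ (j k : ℕ) (i : Fin n), ((sj j k (B i) : ℝ) : ℂ) = sr j k (x i) (y i) := by
    intro j k i
    rw [sj, sr, h1, h2]
    split_ifs <;> simp [hh_cast]
  apply Complex.ofReal_injective
  push_cast
  rw [Finset.prod_congr rfl fun i _ => Finset.prod_congr rfl fun j _ =>
    Rs_cast (B i) (B j) (x i) (y i) (x j) (y j) (h1 i) (h2 i) (h1 j) (h2 j), h]
  apply Finset.sum_congr rfl
  intro σ _
  congr 1
  exact Finset.prod_congr rfl fun i _ => (hs _ _ i).symm

end Pool.Agent.H38.TO
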